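import Pool.Agent.helper65.GD.SpecF

set_option autoImplicit false

/-! # Row XG2: a function with positive real part and its reciprocal -/

namespace Pool.Agent.GD

open Finset Metric Filter Topology

theorem XG2_inv_re (w : ℂ) (h : 0 < w.re) : 0 < (w⁻¹).re := by
  have hw : w ≠ 0 := fun h0 => by rw [h0] at h; simp at h
  rw [Complex.inv_re]
  exact div_pos h (Complex.normSq_pos.2 hw)

theorem XG2 : XG2_stmt := by
  intro Q hQ hpos
  have hne : ∀ z ∈ ball (0 : ℂ) 1, Q z ≠ 0 := fun z hz h0 => by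
    have := hpos z hz
    rw [h0] at this
    simp at this
  have hR : DifferentiableOn ℂ (fun z => (Q z)⁻¹) (ball 0 1) := hQ.inv hne
  have hRpos : ∀ z ∈ ball (0 : ℂ) 1, 0 < ((fun z => (Q z)⁻¹) z).re := fun z hz => XG2_inv_re _ (hpos z hz)
  obtain ⟨q, hq, hq0, hcq⟩ := car_holds Q hQ hpos
  obtain ⟨κ, hκ, -, hcκ⟩ := car_holds (fun z => (Q z)⁻¹) hR hRpos
  refine ⟨q, κ, hq, hκ, hcq, ?_⟩
  have h1 := CO3 Q (fun z => (Q z)⁻¹) _ _ (CO1 Q hQ) (CO1 _ hR)
  have h2 : Ser dl (fun z => Q z * (fun z => (Q z)⁻¹) z) := by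
    intro z hz
    have e : (fun z => Q z * (fun z => (Q z)⁻¹) z) z = dl 0 * z ^ 0 := by
      simp only [dl, if_true, pow_zero, mul_one]
      exact mul_inv_cancel₀ (hne z hz)
    rw [e]
    refine hasSum_single 0 ?_
    intro n hn
    simp only [dl, if_neg hn, zero_mul]
  have h3 := CO2 _ _ _ h1 h2
  intro n
  have h4 := congrFun h3 n
  rw [← h4]
  unfold cv
  refine Finset.sum_congr rfl fun m _ => ?_
  rw [hcq m, hcκ (n - m)]
  have e2 : Q 0 * (fun z => (Q z)⁻¹) 0 = 1 := mul_inv_cancel₀ hq0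
  calc κ (n - m) * q m = 1 * (q m * κ (n - m)) := by ring
    _ = (Q 0 * (fun z => (Q z)⁻¹) 0) * (q m * κ (n - m)) := by rw [e2]
    _ = Q 0 * q m * ((fun z => (Q z)⁻¹) 0 * κ (n - m)) := by ring

end Pool.Agent.GD
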